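import Pool.Agent.W816.EC.Lnv
import Pool.Agent.Helper923.PNT

set_option autoImplicit false

/-!
Project EC, part P4: mean values of the Liouville function of the norm times a character.
-/

open Finset Filter Topology Complex
open ArithmeticFunction (vonMangoldt)

namespace Pool.Agent.W816.EC

open Pool.Agent.H376R2.MR
open Pool.Agent.W78.GA
open Pool.Agent.W78.EC
open Pool.Agent.H304R3.HK (UH CS bb LamK Lg ccf lg_bb ts ee F_ne_zero)
open Pool.Agent.H304R3.HK.M4 (ccf_pow)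
open Pool.Agent.H304R3.HK.LogDerH (lco bco F_exp lco_norm_le lco_summable)

/-! ### the twist by the Liouville function -/

/-- `λ(N z) φ(z)`, `0` at `0` -/
noncomputable def tw (φ : Gi → ℂ) (z : Gi) : ℂ := if z = 0 then 0 else (gl z : ℂ) * φ z

lemma gi_mul_ne {z z' : Gi} (h : z ≠ 0) (h' : z' ≠ 0) : z * z' ≠ 0 := by
  intro h0
  have h1 := nm_mul z z'
  rw [h0, nm_zero] at h1
  have h2 := nm_pos hD h
  have h3 := nm_pos hD h'
  have h4 := Nat.mul_pos h2 h3
  omega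

lemma tw_mul {φ : Gi → ℂ} (hmul : ∀ z z', φ (z * z') = φ z * φ z') (z z' : Gi) :
    tw φ (z * z') = tw φ z * tw φ z' := by
  unfold tw
  by_cases h : z = 0
  · simp [h]
  by_cases h' : z' = 0
  · simp [h']
  rw [if_neg h, if_neg h', if_neg (gi_mul_ne h h'), gl_mul hD h h', hmul]
  push_cast
  ring

lemma lam_one' : lam 1 = 1 := by simp [lam]

lemma tw_one {φ : Gi → ℂ} (hone : φ 1 = 1) : tw φ 1 = 1 := by
  have h1 : (1 : Gi) ≠ 0 := by
    intro h
    have h0 : nm (1 : Gi) = 1 := nm_one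
    rw [h, nm_zero] at h0
    omega
  unfold tw gl
  rw [if_neg h1, nm_one, lam_one', hone]
  norm_num

lemma tw_unit {φ : Gi → ℂ} (hu : φ ⟨0, 1⟩ = 1) : tw φ ⟨0, 1⟩ = 1 := by
  have h1 : (⟨0, 1⟩ : Gi) ≠ 0 := by
    intro h
    have := congrArg QuadraticAlgebra.im h
    simp at this
  have h2 : nm (⟨0, 1⟩ : Gi) = 1 := by
    have : ((nm (⟨0, 1⟩ : Gi) : ℕ) : ℤ) = 1 := by
      rw [nm_cast hD]
      norm_num
    exact_mod_cast this
  unfold tw gl
  rw [if_neg h1, h2, lam_one', hu]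
  norm_num

lemma norm_lam (n : ℕ) : ‖((lam n : ℤ) : ℂ)‖ = 1 := by
  rcases lam_eq n with h | h <;> rw [h] <;> norm_num

lemma tw_le {φ : Gi → ℂ} (hb : ∀ z, ‖φ z‖ ≤ 1) (z : Gi) : ‖tw φ z‖ ≤ 1 := by
  unfold tw
  split_ifs
  · simp
  · unfold gl
    rw [norm_mul, norm_lam, one_mul]
    exact hb z

/-- the twisted function on `GaussianInt` -/
noncomputable def hT {M : ℕ} {φ : Gi → ℂ} (H : HCh M φ) : GaussianInt →* ℂ :=
  toH (tw φ) (tw_mul H.mul) (tw_one H.one)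

lemma hT_UH {M : ℕ} (hM : 1 ≤ M) {φ : Gi → ℂ} (H : HCh M φ) : UH (hT H) :=
  toH_UH (tw φ) (tw_mul H.mul) (tw_one H.one) (tw_unit H.unit) (fun z _ => tw_le (phi_le hM H) z)

lemma aL_tw (φ : Gi → ℂ) (n : ℕ) : aL (tw φ) n = ((lam n : ℤ) : ℂ) * aL φ n := by
  unfold aL
  rw [← mul_div_assoc, Finset.mul_sum]
  congr 1
  refine Finset.sum_congr rfl fun z hz => ?_
  rw [mem_filter, mem_ball hD] at hz
  have h0 : z ≠ 0 := by
    rintro rfl
    rw [nm_zero] at hz
    omega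
  unfold tw gl
  rw [if_neg h0, hz.2]

lemma bb_hT {M : ℕ} {φ : Gi → ℂ} (H : HCh M φ) (n : ℕ) :
    bb (hT H) n = ((lam n : ℤ) : ℂ) * bb (hφ H) n := by
  have h1 := aL_toH (tw φ) (tw_mul H.mul) (tw_one H.one) n
  have h2 : bb (hT H) n = aL (tw φ) n := h1.symm
  rw [h2, aL_tw, aL_hφ H]

/-! ### the function `E` -/

/-- the coefficients of `log (F L)` -/
noncomputable def le {M : ℕ} {φ : Gi → ℂ} (H : HCh M φ) (n : ℕ) : ℂ :=
  lco (ccf (hφ H)) n + lco (ccf (hT H)) n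

lemma le_prime {M : ℕ} {φ : Gi → ℂ} (H : HCh M φ) {p : ℕ} (hp : p.Prime) : le H p = 0 := by
  have h1 : ∀ h : GaussianInt →* ℂ, ccf h p = bb h p := by
    intro h
    have := ccf_pow h p hp 1 one_pos
    rw [pow_one] at this
    rw [this]
    rfl
  unfold le lco bco
  rw [h1, h1, bb_hT H, lam_prime hp]
  push_cast
  ring

lemma le_bound {M : ℕ} (hM : 1 ≤ M) {φ : Gi → ℂ} (H : HCh M φ) (n : ℕ) :
    ‖le H n‖ ≤ 4 / Real.log 2 * (if n.Prime then 0 else
      ArithmeticFunction.vonMangoldt.residueClass (0 : ZMod 1) n) := by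
  split_ifs with hp
  · rw [le_prime H hp]
    simp
  · have h1 := lco_norm_le _ _ (lg_bb _ (hφ_UH hM H)) n
    have h2 := lco_norm_le _ _ (lg_bb _ (hT_UH hM H)) n
    have h3 : ArithmeticFunction.vonMangoldt.residueClass (0 : ZMod 1) n = vonMangoldt n := by
      unfold ArithmeticFunction.vonMangoldt.residueClass
      rw [Set.indicator_of_mem]
      exact Subsingleton.elim _ _
    rw [h3]
    unfold le
    refine (norm_add_le _ _).trans ?_
    have h4 : 4 / Real.log 2 * vonMangoldt n = 2 / Real.log 2 * vonMangoldt n +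
      2 / Real.log 2 * vonMangoldt n := by ring
    rw [h4]
    exact add_le_add h1 h2

lemma E_cont {M : ℕ} (hM : 1 ≤ M) {φ : Gi → ℂ} (H : HCh M φ) :
    ContinuousOn (fun s : ℂ => LSeries (le H) s) {s | 1 ≤ s.re} := by
  have hS := (ArithmeticFunction.vonMangoldt.summable_residueClass_non_primes_div
    (0 : ZMod 1)).mul_left (4 / Real.log 2)
  unfold LSeries
  refine continuousOn_tsum (u := fun n : ℕ => 4 / Real.log 2 * ((if n.Prime then 0 else
      ArithmeticFunction.vonMangoldt.residueClass (0 : ZMod 1) n) / n)) ?_ hS ?_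
  · intro n
    rcases eq_or_ne n 0 with rfl | hn
    · simp only [LSeries.term_zero]
      exact continuousOn_const
    · have hn' : (n : ℂ) ≠ 0 := by exact_mod_cast hn
      have h1 : (fun s : ℂ => LSeries.term (le H) s n) = fun s => le H n / (n : ℂ) ^ s := by
        funext s
        rw [LSeries.term_of_ne_zero hn]
      rw [h1]
      refine Continuous.continuousOn ?_
      refine continuous_const.div (continuous_id.const_cpow (Or.inl hn')) fun s => ?_
      rw [Complex.cpow_ne_zero_iff]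
      exact Or.inl hn'
  · intro n s hs
    rcases eq_or_ne n 0 with rfl | hn
    · simp
    · have hnp : (0 : ℝ) < n := by exact_mod_cast Nat.pos_of_ne_zero hn
      rw [LSeries.term_of_ne_zero hn, norm_div,
        Complex.norm_natCast_cpow_of_pos (Nat.pos_of_ne_zero hn), ← mul_div_assoc]
      have h1 : (n : ℝ) ≤ (n : ℝ) ^ s.re := by
        have h2 : (1 : ℝ) ≤ n := by exact_mod_cast Nat.pos_of_ne_zero hn
        calc (n : ℝ) = (n : ℝ) ^ (1 : ℝ) := (Real.rpow_one _).symm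
          _ ≤ (n : ℝ) ^ s.re := Real.rpow_le_rpow_of_exponent_le h2 hs
      calc ‖le H n‖ / (n : ℝ) ^ s.re ≤ ‖le H n‖ / n :=
            div_le_div_of_nonneg_left (norm_nonneg _) hnp h1
        _ ≤ _ := div_le_div_of_nonneg_right (le_bound hM H n) hnp.le

/-! ### summability -/

/-- number of Gaussian integers of norm `n`, divided by `4` -/
noncomputable def rr (n : ℕ) : ℝ := (((ball 0 1 (n : ℝ)).filter (fun z => nm z = n)).card : ℝ) / 4

lemma rr_nonneg (n : ℕ) : 0 ≤ rr n := by unfold rr; positivity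

lemma aL_le {φ : Gi → ℂ} (hb : ∀ z, ‖φ z‖ ≤ 1) (n : ℕ) : ‖aL φ n‖ ≤ rr n := by
  unfold aL rr
  rw [norm_div]
  have h4 : ‖(4 : ℂ)‖ = 4 := by norm_num
  rw [h4]
  refine div_le_div_of_nonneg_right ?_ (by norm_num)
  refine (norm_sum_le _ _).trans ?_
  refine (Finset.sum_le_sum fun z _ => hb z).trans ?_
  simp

lemma aL_pr1 (n : ℕ) : aL (pr 1) n = ((rr n : ℝ) : ℂ) := by
  have h1 : ∀ z : Gi, pr 1 z = 1 := by
    intro z
    unfold pr
    rw [if_pos]
    rw [Nat.cast_one]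
    exact isCoprime_one_right
  unfold aL rr
  simp only [h1]
  rw [Finset.sum_const, nsmul_eq_mul, mul_one]
  push_cast
  rfl

lemma rr_summable (hL : S_LCON) {s : ℂ} (hs : 1 < s.re) :
    LSeriesSummable (fun n => ((rr n : ℝ) : ℂ)) s := by
  have h1 : ∀ z : Gi, pr 1 z ≠ 0 → pr 1 z = 1 := by
    intro z hz
    unfold pr at hz ⊢
    split_ifs at hz ⊢ with h
    · rfl
    · exact absurd rfl hz
  obtain ⟨g, -, -, hg⟩ := (hL 1 (pr 1) le_rfl (HCh_pr 1)).2 h1
  have := (hg s hs).1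
  rwa [show aL (pr 1) = fun n => ((rr n : ℝ) : ℂ) from funext aL_pr1] at this

lemma summable_of_rr (hL : S_LCON) {f : ℕ → ℂ} (hf : ∀ n, ‖f n‖ ≤ rr n) {s : ℂ}
    (hs : 1 < s.re) : LSeriesSummable f s := by
  refine Summable.of_norm_bounded (rr_summable hL hs).norm fun n => ?_
  rcases eq_or_ne n 0 with rfl | hn
  · simp
  · rw [LSeries.term_of_ne_zero hn, LSeries.term_of_ne_zero hn, norm_div, norm_div,
      Complex.norm_real, Real.norm_of_nonneg (rr_nonneg n)]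
    exact div_le_div_of_nonneg_right (hf n) (norm_nonneg _)

lemma lamaL_le {φ : Gi → ℂ} (hb : ∀ z, ‖φ z‖ ≤ 1) (n : ℕ) :
    ‖((lam n : ℤ) : ℂ) * aL φ n‖ ≤ rr n := by
  rw [norm_mul, norm_lam, one_mul]
  exact aL_le hb n

/-! ### the continuation of the twisted series -/

lemma prod_exp (hL : S_LCON) {M : ℕ} (hM : 1 ≤ M) {φ : Gi → ℂ} (H : HCh M φ) {s : ℂ}
    (hs : 1 < s.re) : LSeries (fun n => ((lam n : ℤ) : ℂ) * aL φ n) s * LSeries (aL φ) s =
      Complex.exp (LSeries (le H) s) := by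
  have L1 := lg_bb _ (hφ_UH hM H)
  have L2 := lg_bb _ (hT_UH hM H)
  have hb := phi_le hM H
  have e1 : aL φ = bb (hφ H) := funext fun n => aL_hφ H n
  have e2 : (fun n => ((lam n : ℤ) : ℂ) * aL φ n) = bb (hT H) := by
    funext n
    rw [bb_hT, aL_hφ H]
  have s1 : ∀ s : ℂ, 1 < s.re → HasSum (fun n : ℕ => bb (hφ H) n * (n : ℂ) ^ (-s))
      (LSeries (bb (hφ H)) s) := by
    intro s hs
    refine hs_of L1.b0 ?_
    rw [← e1]
    exact summable_of_rr hL (aL_le hb) hs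
  have s2 : ∀ s : ℂ, 1 < s.re → HasSum (fun n : ℕ => bb (hT H) n * (n : ℂ) ^ (-s))
      (LSeries (bb (hT H)) s) := by
    intro s hs
    refine hs_of L2.b0 ?_
    rw [← e2]
    exact summable_of_rr hL (lamaL_le hb) hs
  rw [e2, e1, F_exp _ _ L2 _ s2 s hs, F_exp _ _ L1 _ s1 s hs, ← Complex.exp_add]
  congr 1
  have h3 : le H = lco (ccf (hφ H)) + lco (ccf (hT H)) := rfl
  rw [h3, LSeries_add (lco_summable _ _ L1 s hs) (lco_summable _ _ L2 s hs), add_comm]

lemma cont_tw (hL : S_LCON) (hN : S_LNV) {M : ℕ} (hM : 1 ≤ M) {φ : Gi → ℂ} (H : HCh M φ) :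
    ∃ F : ℂ → ℂ, ContinuousOn F {s | 1 ≤ s.re} ∧
      ∀ s : ℂ, 1 < s.re → F s = LSeries (fun n => ((lam n : ℤ) : ℂ) * aL φ n) s := by
  have hne : ∀ s : ℂ, 1 < s.re → LSeries (aL φ) s ≠ 0 := by
    intro s hs h0
    have := prod_exp hL hM H hs
    rw [h0, mul_zero] at this
    exact Complex.exp_ne_zero _ this.symm
  have hre : ∀ s : ℂ, 1 ≤ s.re → s.re = 1 ∨ 1 < s.re := fun s hs => by
    rcases hs.eq_or_lt with h | h
    · exact Or.inl h.symm
    · exact Or.inr h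
  have hform : ∀ s : ℂ, s.re = 1 → s = 1 + (s.im : ℝ) * I := by
    intro s hs
    apply Complex.ext
    · simp [hs]
    · simp
  by_cases hnp : ∃ z, φ z ≠ 0 ∧ φ z ≠ 1
  · obtain ⟨g, hg, hgs⟩ := (hL M φ hM H).1 hnp
    refine ⟨fun s => Complex.exp (LSeries (le H) s) * (g s)⁻¹, ?_, ?_⟩
    · refine ((E_cont hM H).cexp).mul (hg.continuous.continuousOn.inv₀ fun s hs => ?_)
      rcases hre s hs with h | h
      · rw [hform s h]
        exact hN M φ hM H g hg (Or.inl ⟨hnp, fun s hs => (hgs s hs).2⟩) s.im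
      · rw [(hgs s h).2]
        exact hne s h
    · intro s hs
      have h1 := prod_exp hL hM H hs
      have h2 := hne s hs
      simp only
      rw [(hgs s hs).2, ← h1, mul_assoc, mul_inv_cancel₀ h2, mul_one]
  · have hp : ∀ z, φ z ≠ 0 → φ z = 1 := by
      intro z hz
      by_contra hc
      exact hnp ⟨z, hz, hc⟩
    obtain ⟨g, hg, -, hgs⟩ := (hL M φ hM H).2 hp
    refine ⟨fun s => Complex.exp (LSeries (le H) s) * ((s - 1) * (g s)⁻¹), ?_, ?_⟩
    · refine ((E_cont hM H).cexp).mul ((continuousOn_id.sub continuousOn_const).mul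
        (hg.continuous.continuousOn.inv₀ fun s hs => ?_))
      rcases hre s hs with h | h
      · rw [hform s h]
        exact hN M φ hM H g hg (Or.inr ⟨hp, fun s hs => (hgs s hs).2⟩) s.im
      · rw [(hgs s h).2]
        refine mul_ne_zero (sub_ne_zero_of_ne ?_) (hne s h)
        rintro rfl
        simp at h
    · intro s hs
      have h1 := prod_exp hL hM H hs
      have h2 := hne s hs
      have h3 : s - 1 ≠ 0 := by
        refine sub_ne_zero_of_ne ?_
        rintro rfl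
        simp at hs
      simp only
      rw [(hgs s hs).2, ← h1]
      field_simp

/-! ### counting -/

lemma ball_fiber (X : ℝ) {k : ℕ} (hk : k ∈ Icc 1 ⌊X⌋₊) :
    (ball 0 1 X).filter (fun z => nm z = k) = (ball 0 1 (k : ℝ)).filter (fun z => nm z = k) := by
  rw [mem_Icc] at hk
  have hX : (k : ℝ) ≤ X := (Nat.le_floor_iff' (by omega)).1 hk.2
  ext z
  rw [mem_filter, mem_filter, mem_ball hD, mem_ball hD]
  constructor
  · rintro ⟨⟨h1, h2⟩, h3⟩
    exact ⟨⟨h1, by rw [h3]⟩, h3⟩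
  · rintro ⟨⟨h1, h2⟩, h3⟩
    exact ⟨⟨h1, by rw [h3]; exact hX⟩, h3⟩

lemma ball_maps (X : ℝ) : ∀ z ∈ ball 0 1 X, nm z ∈ Icc 1 ⌊X⌋₊ := by
  intro z hz
  rw [mem_ball hD] at hz
  rw [mem_Icc]
  exact ⟨hz.1, Nat.le_floor hz.2⟩

lemma sum_ball (X : ℝ) (f : Gi → ℂ) : ∑ z ∈ ball 0 1 X, f z =
    ∑ k ∈ Icc 1 ⌊X⌋₊, ∑ z ∈ (ball 0 1 (k : ℝ)).filter (fun z => nm z = k), f z := by
  rw [← Finset.sum_fiberwise_of_maps_to (ball_maps X) f]
  exact Finset.sum_congr rfl fun k hk => by rw [ball_fiber X hk]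

lemma sum_rr (n : ℕ) : ∑ k ∈ Icc 1 n, rr k = ((ball 0 1 (n : ℝ)).card : ℝ) / 4 := by
  have h := Finset.card_eq_sum_card_fiberwise (ball_maps (n : ℝ))
  rw [h, Nat.floor_natCast]
  unfold rr
  rw [← Finset.sum_div]
  push_cast
  congr 1
  refine Finset.sum_congr rfl fun k hk => ?_
  rw [ball_fiber (n : ℝ) (by rwa [Nat.floor_natCast])]

lemma ball_card_le (n : ℕ) : (ball 0 1 (n : ℝ)).card ≤ 9 * n := by
  rcases Nat.eq_zero_or_pos n with rfl | hn
  · have : ball 0 1 ((0 : ℕ) : ℝ) = ∅ := by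
      rw [Finset.eq_empty_iff_forall_notMem]
      intro z hz
      rw [mem_ball hD] at hz
      have h2 : (nm z : ℝ) ≤ 0 := by simpa using hz.2
      have h3 : (1 : ℝ) ≤ nm z := by exact_mod_cast hz.1
      linarith
    rw [this]
    simp
  · have h1 : ball 0 1 (n : ℝ) ⊆ ((Icc (-(Nat.sqrt n : ℤ)) (Nat.sqrt n)) ×ˢ
        (Icc (-(Nat.sqrt n : ℤ)) (Nat.sqrt n))).image (fun p => (⟨p.1, p.2⟩ : Gi)) := by
      intro z hz
      rw [mem_ball hD] at hz
      have h2 : nm z ≤ n := by exact_mod_cast hz.2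
      have h3 := nm_cast hD z
      have h4 : z.re ^ 2 + z.im ^ 2 ≤ n := by
        have : (nm z : ℤ) ≤ n := by exact_mod_cast h2
        rw [h3] at this
        linarith
      have key : ∀ a : ℤ, a ^ 2 ≤ n → a ∈ Icc (-(Nat.sqrt n : ℤ)) (Nat.sqrt n) := by
        intro a ha
        have h5 : a.natAbs * a.natAbs ≤ n := by
          have : ((a.natAbs * a.natAbs : ℕ) : ℤ) ≤ n := by
            rw [Int.natAbs_mul_self]
            linarith [sq a]
          exact_mod_cast this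
        have h6 := Nat.le_sqrt.2 h5
        rw [mem_Icc]
        omega
      rw [mem_image]
      refine ⟨(z.re, z.im), ?_, rfl⟩
      rw [mem_product]
      exact ⟨key _ (by nlinarith [sq_nonneg z.im]), key _ (by nlinarith [sq_nonneg z.re])⟩
    have h2 := (Finset.card_le_card h1).trans Finset.card_image_le
    rw [Finset.card_product, Int.card_Icc] at h2
    have h3 : ((Nat.sqrt n : ℤ) + 1 - -(Nat.sqrt n : ℤ)).toNat = 2 * Nat.sqrt n + 1 := by omega
    rw [h3] at h2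
    have h4 : 1 ≤ Nat.sqrt n := Nat.le_sqrt.2 (by omega)
    have h5 := Nat.sqrt_le n
    nlinarith

lemma sum_rr_le (n : ℕ) : ∑ k ∈ Icc 1 n, rr k ≤ 9 * n := by
  rw [sum_rr]
  have : ((ball 0 1 (n : ℝ)).card : ℝ) ≤ 9 * n := by exact_mod_cast ball_card_le n
  have h0 : (0 : ℝ) ≤ n := Nat.cast_nonneg n
  linarith

/-! ### the main term -/

lemma rr_cont (hL : S_LCON) : ∃ (A : ℝ) (G : ℂ → ℂ), Continuous G ∧ ∀ s : ℂ, 1 < s.re →
    G s = LSeries (fun n => ((rr n : ℝ) : ℂ)) s - A / (s - 1) := by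
  have h1 : ∀ z : Gi, pr 1 z ≠ 0 → pr 1 z = 1 := by
    intro z hz
    unfold pr at hz ⊢
    split_ifs at hz ⊢ with h
    · rfl
    · exact absurd rfl hz
  obtain ⟨g, hgd, -, hg⟩ := (hL 1 (pr 1) le_rfl (HCh_pr 1)).2 h1
  rw [show aL (pr 1) = fun n => ((rr n : ℝ) : ℂ) from funext aL_pr1] at hg
  -- the value at `1` is real
  have him : (g 1).im = 0 := by
    have e1 : ∀ σ : ℝ, 1 < σ → (g (σ : ℂ)).im = 0 := by
      intro σ hσ
      rw [(hg σ (by simpa using hσ)).2]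
      have e2 : LSeries (fun n => ((rr n : ℝ) : ℂ)) (σ : ℂ) =
          ((∑' n : ℕ, (if n = 0 then 0 else rr n / (n : ℝ) ^ σ) : ℝ) : ℂ) := by
        rw [Complex.ofReal_tsum]
        unfold LSeries
        refine tsum_congr fun n => ?_
        rcases eq_or_ne n 0 with rfl | hn
        · simp
        · rw [LSeries.term_of_ne_zero hn, if_neg hn]
          push_cast
          rw [Complex.ofReal_cpow (Nat.cast_nonneg n)]
          simp
      rw [e2]
      have e3 : ((σ : ℂ) - 1) = ((σ - 1 : ℝ) : ℂ) := by push_cast; ring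
      rw [e3, ← Complex.ofReal_mul, Complex.ofReal_im]
    have e2 : Tendsto (fun σ : ℝ => (g (σ : ℂ)).im) (𝓝[>] 1) (𝓝 (g 1).im) := by
      have : Continuous fun σ : ℝ => (g (σ : ℂ)).im :=
        Complex.continuous_im.comp (hgd.continuous.comp Complex.continuous_ofReal)
      have h2 := (this.tendsto 1).mono_left (nhdsWithin_le_nhds (s := Set.Ioi (1 : ℝ)))
      simpa using h2
    have e3 : Tendsto (fun σ : ℝ => (g (σ : ℂ)).im) (𝓝[>] 1) (𝓝 0) := by
      refine tendsto_const_nhds.congr' ?_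
      filter_upwards [self_mem_nhdsWithin] with σ hσ
      exact (e1 σ hσ).symm
    exact tendsto_nhds_unique e2 e3
  have hA : g 1 = (((g 1).re : ℝ) : ℂ) := by
    apply Complex.ext
    · simp
    · simp [him]
  refine ⟨(g 1).re, dslope g 1, ?_, ?_⟩
  · rw [← continuousOn_univ]
    exact (continuousOn_dslope Filter.univ_mem).2 ⟨hgd.continuous.continuousOn, hgd 1⟩
  · intro s hs
    have hs1 : s ≠ 1 := by
      rintro rfl
      simp at hs
    rw [dslope_of_ne _ hs1, slope_def_module, (hg s hs).2, ← hA, smul_eq_mul]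
    have h3 : s - 1 ≠ 0 := sub_ne_zero_of_ne hs1
    field_simp

lemma aL_conj (φ : Gi → ℂ) (n : ℕ) :
    aL (fun z => (starRingEnd ℂ) (φ z)) n = (starRingEnd ℂ) (aL φ n) := by
  unfold aL
  rw [map_div₀, map_sum, Complex.conj_ofNat]

/-! ### the Tauberian argument -/

lemma taub (hL : S_LCON) (hN : S_LNV) {M : ℕ} (hM : 1 ≤ M) {φ : Gi → ℂ} (H : HCh M φ) :
    ∃ A : ℝ, ∀ ζ : ℂ, ‖ζ‖ ≤ 1 → Tendsto (fun x : ℝ => (∑ k ∈ Icc 1 ⌊x⌋₊,
      (rr k + (ζ * (((lam k : ℤ) : ℂ) * aL φ k)).re)) / x) atTop (𝓝 A) := by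
  obtain ⟨A, G, hG, hGs⟩ := rr_cont hL
  obtain ⟨F₁, hF₁, hF₁s⟩ := cont_tw hL hN hM H
  obtain ⟨F₂, hF₂, hF₂s⟩ := cont_tw hL hN hM (HCh_conj H)
  have hb := phi_le hM H
  have hb' := phi_le hM (HCh_conj H)
  refine ⟨A, fun ζ hζ => ?_⟩
  have hre : ∀ k : ℕ, |(ζ * (((lam k : ℤ) : ℂ) * aL φ k)).re| ≤ rr k := by
    intro k
    refine (Complex.abs_re_le_norm _).trans ?_
    rw [norm_mul]
    calc ‖ζ‖ * ‖((lam k : ℤ) : ℂ) * aL φ k‖ ≤ 1 * rr k :=
          mul_le_mul hζ (lamaL_le hb k) (norm_nonneg _) zero_le_one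
      _ = rr k := one_mul _
  refine Pool.Agent.Helper923.PNT.wiener_ikehara
    (fun k => rr k + (ζ * (((lam k : ℤ) : ℂ) * aL φ k)).re) ?_ 18 A ?_
    (fun s => G s + (ζ / 2 * F₁ s + (starRingEnd ℂ) ζ / 2 * F₂ s)) ?_ ?_
  · intro k
    have := abs_le.1 (hre k)
    linarith [this.1]
  · intro n
    calc ∑ k ∈ Icc 1 n, (rr k + (ζ * (((lam k : ℤ) : ℂ) * aL φ k)).re)
        ≤ ∑ k ∈ Icc 1 n, (rr k + rr k) :=
          Finset.sum_le_sum fun k _ => add_le_add le_rfl ((le_abs_self _).trans (hre k))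
      _ = 2 * ∑ k ∈ Icc 1 n, rr k := by rw [Finset.sum_add_distrib]; ring
      _ ≤ 18 * n := by linarith [sum_rr_le n]
  · exact hG.continuousOn.add ((continuousOn_const.mul hF₁).add (continuousOn_const.mul hF₂))
  · intro s hs
    have e1 : (fun n : ℕ => ((rr n + (ζ * (((lam n : ℤ) : ℂ) * aL φ n)).re : ℝ) : ℂ)) =
        (fun n => ((rr n : ℝ) : ℂ)) + ((ζ / 2) • (fun n => ((lam n : ℤ) : ℂ) * aL φ n) +
          ((starRingEnd ℂ) ζ / 2) • (fun n => ((lam n : ℤ) : ℂ) *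
            aL (fun z => (starRingEnd ℂ) (φ z)) n)) := by
      funext n
      simp only [Pi.add_apply, Pi.smul_apply, smul_eq_mul]
      rw [aL_conj]
      push_cast
      rw [Complex.re_eq_add_conj]
      simp only [map_mul, map_intCast]
      ring
    have s0 := rr_summable hL hs
    have s1 := summable_of_rr hL (lamaL_le hb) hs
    have s2 := summable_of_rr hL (lamaL_le hb') hs
    rw [e1, LSeries_add s0 ((s1.smul _).add (s2.smul _)), LSeries_add (s1.smul _) (s2.smul _),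
      LSeries_smul, LSeries_smul, hGs s hs, hF₁s s hs, hF₂s s hs]
    ring

theorem lmean (hL : S_LCON) (hN : S_LNV) : S_LMEAN := by
  intro M φ hM H ε hε
  obtain ⟨A, hA⟩ := taub hL hN hM H
  have h0 := hA 0 (by simp)
  have key : ∀ ζ : ℂ, ‖ζ‖ ≤ 1 → Tendsto (fun x : ℝ => (∑ k ∈ Icc 1 ⌊x⌋₊,
      (ζ * (((lam k : ℤ) : ℂ) * aL φ k)).re) / x) atTop (𝓝 0) := by
    intro ζ hζ
    have h1 := (hA ζ hζ).sub h0
    rw [sub_self] at h1
    refine h1.congr fun x => ?_
    rw [← sub_div, ← Finset.sum_sub_distrib]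
    congr 1
    refine Finset.sum_congr rfl fun k _ => ?_
    simp
  have h1 := key 1 (by simp)
  have h2 := key (-I) (by simp)
  have e1 := h1.eventually (Metric.ball_mem_nhds 0 (show (0 : ℝ) < ε / 8 by positivity))
  have e2 := h2.eventually (Metric.ball_mem_nhds 0 (show (0 : ℝ) < ε / 8 by positivity))
  obtain ⟨X₁, hX₁⟩ := Filter.eventually_atTop.1 (e1.and e2)
  refine ⟨max X₁ 1, fun X hX => ?_⟩
  have hXp : 0 < X := lt_of_lt_of_le one_pos ((le_max_right _ _).trans hX)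
  obtain ⟨h3, h4⟩ := hX₁ X ((le_max_left _ _).trans hX)
  rw [dist_zero_right, Real.norm_eq_abs, abs_div, abs_of_pos hXp,
    div_lt_iff₀ hXp] at h3 h4
  rw [sum_ball]
  have e3 : ∀ k ∈ Icc 1 ⌊X⌋₊, ∑ z ∈ (ball 0 1 (k : ℝ)).filter (fun z => nm z = k),
      (gl z : ℂ) * φ z = 4 * (((lam k : ℤ) : ℂ) * aL φ k) := by
    intro k _
    have : ∑ z ∈ (ball 0 1 (k : ℝ)).filter (fun z => nm z = k), (gl z : ℂ) * φ z =
        ((lam k : ℤ) : ℂ) * ∑ z ∈ (ball 0 1 (k : ℝ)).filter (fun z => nm z = k), φ z := by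
      rw [Finset.mul_sum]
      refine Finset.sum_congr rfl fun z hz => ?_
      rw [mem_filter] at hz
      unfold gl
      rw [hz.2]
    rw [this]
    unfold aL
    ring
  rw [Finset.sum_congr rfl e3, ← Finset.mul_sum, norm_mul]
  have h5 : ‖(4 : ℂ)‖ = 4 := by norm_num
  rw [h5]
  have h6 := Complex.norm_le_abs_re_add_abs_im (∑ k ∈ Icc 1 ⌊X⌋₊, ((lam k : ℤ) : ℂ) * aL φ k)
  rw [Complex.re_sum, Complex.im_sum] at h6
  have h7 : ∑ k ∈ Icc 1 ⌊X⌋₊, ((1 : ℂ) * (((lam k : ℤ) : ℂ) * aL φ k)).re =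
      ∑ k ∈ Icc 1 ⌊X⌋₊, (((lam k : ℤ) : ℂ) * aL φ k).re :=
    Finset.sum_congr rfl fun k _ => by rw [one_mul]
  have h8 : ∑ k ∈ Icc 1 ⌊X⌋₊, (-I * (((lam k : ℤ) : ℂ) * aL φ k)).re =
      ∑ k ∈ Icc 1 ⌊X⌋₊, (((lam k : ℤ) : ℂ) * aL φ k).im :=
    Finset.sum_congr rfl fun k _ => by
      rw [Complex.mul_re]
      simp
  rw [h7] at h3
  rw [h8] at h4
  linarith

end Pool.Agent.W816.EC
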