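import Pool.Agent.W816.EC.Landau

set_option autoImplicit false

/-!
Project EC, part P3: the L-functions do not vanish on the line `Re s = 1`.
-/

open Finset Filter Topology Complex
open ArithmeticFunction (vonMangoldt)
open scoped ComplexOrder

namespace Pool.Agent.W816.EC

open Pool.Agent.W78.GA
open Pool.Agent.W78.EC
open Pool.Agent.H304R3.HK (UH CS bb LamK Lg ccf lg_bb lam_eq lam_one nzr_LamK_nonneg ts ee
  F_ne_zero)
open Pool.Agent.H304R3.HK.M4 (ccf_pow ts_0e bb_inert vM_pow)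

lemma ts_even (e : ℂ) (m : ℕ) : ts 0 e (2 * m) = 2 * (-e) ^ m := by
  induction m with
  | zero => simp [ts]
  | succ m ih =>
    rw [show 2 * (m + 1) = 2 * m + 2 by ring, ts_0e, ih, pow_succ]
    ring

lemma gi_natCast (n : ℕ) : gi (n : GaussianInt) = (n : Gi) := by
  apply QuadraticAlgebra.ext
  · simp [gi, QuadraticAlgebra.re_natCast]
  · simp [gi, QuadraticAlgebra.im_natCast]

lemma hφ_apply {M : ℕ} {φ : Gi → ℂ} (H : HCh M φ) (a : GaussianInt) :
    hφ H a = if a = 0 then 0 else φ (gi a) := rfl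

lemma vA_bb {M : ℕ} (hM : 1 ≤ M) {φ : Gi → ℂ} (H : HCh M φ) (n : ℕ) :
    vA (ccf (hφ H)) n = (1 / 4 : ℂ) * ∑ p ∈ CS n, (LamK ⟨p.1, p.2⟩ : ℂ) * hφ H ⟨p.1, p.2⟩ := by
  rw [vA_apply, ← lam_eq _ (hφ_UH hM H)]
  rfl

lemma sq_one_cases {x : ℂ} (h : x ^ 2 = 1) : x = 1 ∨ x = -1 := by
  have h2 : (x - 1) * (x + 1) = 0 := by linear_combination h
  rcases mul_eq_zero.1 h2 with h3 | h3
  · left; linear_combination h3
  · right; linear_combination h3

lemma quad_nonneg {M : ℕ} (hM : 1 ≤ M) {φ : Gi → ℂ} (H : HCh M φ)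
    (hq : ∀ z, φ z ≠ 0 → φ z ^ 2 = 1) (n : ℕ) :
    0 ≤ (vA (ccf (hφ (HCh_pr M))) + vA (ccf (hφ H))) n := by
  rw [ArithmeticFunction.add_apply, vA_bb hM, vA_bb hM, ← mul_add, ← Finset.sum_add_distrib]
  refine mul_nonneg ?_ (Finset.sum_nonneg fun p _ => ?_)
  · have : (0 : ℝ) ≤ 1 / 4 := by norm_num
    have h2 : ((1 / 4 : ℝ) : ℂ) = 1 / 4 := by push_cast; rfl
    rw [← h2]
    exact_mod_cast this
  · rw [← mul_add]
    refine mul_nonneg (by exact_mod_cast nzr_LamK_nonneg _) ?_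
    rw [hφ_apply, hφ_apply]
    split_ifs with h0
    · simp
    · set z := gi (⟨p.1, p.2⟩ : GaussianInt) with hz
      by_cases h1 : φ z = 0
      · have h2 : ¬ IsCoprime z (M : Gi) := fun h => ((H.ne z).2 h) h1
        unfold pr
        rw [if_neg h2, h1]
        simp
      · have h2 : IsCoprime z (M : Gi) := (H.ne z).1 h1
        unfold pr
        rw [if_pos h2]
        rcases sq_one_cases (hq z h1) with h3 | h3
        · rw [h3]
          have : (0 : ℝ) ≤ 1 + 1 := by norm_num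
          exact_mod_cast this
        · rw [h3]
          simp

lemma exists_inert (M : ℕ) : ∃ p : ℕ, p.Prime ∧ p % 4 = 3 ∧ M < p := by
  have hu : IsUnit (3 : ZMod 4) := by decide
  obtain ⟨p, hp1, hp2, hp3⟩ := Nat.forall_exists_prime_gt_and_eq_mod hu M
  refine ⟨p, hp2, ?_, hp1⟩
  have : ((p : ℕ) : ZMod 4) = ((3 : ℕ) : ZMod 4) := by rw [hp3]; rfl
  rw [ZMod.natCast_eq_natCast_iff'] at this
  simpa using this

lemma vA_inert {M : ℕ} (hM : 1 ≤ M) {φ : Gi → ℂ} (H : HCh M φ)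
    (hq : ∀ z, φ z ≠ 0 → φ z ^ 2 = 1) (p : ℕ) (hp : p.Prime) (h3 : p % 4 = 3) (hpM : M < p)
    (j : ℕ) (hj : 1 ≤ j) : vA (ccf (hφ H)) (p ^ (4 * j)) = ((2 * Real.log p : ℝ) : ℂ) := by
  have hp2 : p ≠ 2 := by rintro rfl; norm_num at h3
  have hp0 : (p : GaussianInt) ≠ 0 := by exact_mod_cast hp.ne_zero
  rw [vA_apply, vM_pow p hp (4 * j) (by omega), ccf_pow _ p hp (4 * j) (by omega),
    bb_inert (hφ_UH hM H).hi p hp h3]
  have he : ee (hφ H) p = -hφ H (p : GaussianInt) := by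
    unfold ee
    rw [if_neg hp2, if_pos h3]
  have hc : IsCoprime (p : Gi) (M : Gi) := by
    have h1 : Nat.Coprime p M := (Nat.Prime.coprime_iff_not_dvd hp).2
      (fun h => absurd (Nat.le_of_dvd hM h) (by omega))
    have h2 : IsCoprime (p : ℤ) (M : ℤ) := Nat.isCoprime_iff_coprime.2 h1
    have h3 := h2.map (Int.castRingHom Gi)
    simpa using h3
  have hv : hφ H (p : GaussianInt) = φ (p : Gi) := by
    rw [hφ_apply, if_neg hp0, gi_natCast]
  have hv2 : (hφ H (p : GaussianInt)) ^ 2 = 1 := by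
    rw [hv]
    exact hq _ ((H.ne _).2 hc)
  rw [he, show 4 * j = 2 * (2 * j) by ring, ts_even, neg_neg, pow_mul, hv2, one_pow]
  push_cast
  ring

/-- the quadratic case -/
theorem quad (hL : S_LCON) {M : ℕ} (hM : 1 ≤ M) {φ : Gi → ℂ} (H : HCh M φ)
    (hnp : ∃ z, φ z ≠ 0 ∧ φ z ≠ 1) (hq : ∀ z, φ z ≠ 0 → φ z ^ 2 = 1) (g : ℂ → ℂ)
    (hg : Differentiable ℂ g) (hgs : ∀ s : ℂ, 1 < s.re → g s = LSeries (aL φ) s) : g 1 ≠ 0 := by
  intro hg1
  have hpr : ∀ z, pr M z ≠ 0 → pr M z = 1 := by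
    intro z hz
    unfold pr at hz ⊢
    split_ifs at hz ⊢ with h
    · rfl
    · exact absurd rfl hz
  have hprq : ∀ z, pr M z ≠ 0 → pr M z ^ 2 = 1 := fun z hz => by rw [hpr z hz, one_pow]
  obtain ⟨g0, hg0, -, hg0s⟩ := (hL M (pr M) hM (HCh_pr M)).2 hpr
  obtain ⟨g', -, hg's⟩ := (hL M φ hM H).1 hnp
  have L0 := lg_bb _ (hφ_UH hM (HCh_pr M))
  have L1 := lg_bb _ (hφ_UH hM H)
  have e0 : aL (pr M) = bb (hφ (HCh_pr M)) := funext fun n => aL_hφ (HCh_pr M) n
  have e1 : aL φ = bb (hφ H) := funext fun n => aL_hφ H n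
  obtain ⟨p, hp, h3, hpM⟩ := exists_inert M
  have hc := quad_nonneg hM H hq
  refine landau (toA (bb (hφ (HCh_pr M))) L0.b0 * toA (bb (hφ H)) L1.b0)
    (prod_nonneg L0 L1 hc) ?_ p hp (prod_lower L0 L1 hc p hp ?_)
    (fun s => g0 s * dslope g 1 s) ?_ ?_
  · rw [ArithmeticFunction.mul_apply_one, toA_apply, toA_apply, L0.b1, L1.b1, one_mul]
  · intro j hj
    rw [ArithmeticFunction.add_apply, vA_inert hM (HCh_pr M) hprq p hp h3 hpM j hj,
      vA_inert hM H hq p hp h3 hpM j hj]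
    push_cast
    ring
  · refine hg0.mul ?_
    rw [← differentiableOn_univ]
    exact (Complex.differentiableOn_dslope Filter.univ_mem).2 hg.differentiableOn
  · intro s hs
    have s0 : LSeriesSummable (fun n => toA (bb (hφ (HCh_pr M))) L0.b0 n) s := by
      have := (hg0s s hs).1
      rw [e0] at this
      exact this
    have s1 : LSeriesSummable (fun n => toA (bb (hφ H)) L1.b0 n) s := by
      have := (hg's s hs).1
      rw [e1] at this
      exact this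
    refine ⟨ArithmeticFunction.LSeriesSummable_mul s0 s1, ?_⟩
    rw [ArithmeticFunction.LSeries_mul' s0 s1]
    have hs1 : s ≠ 1 := by
      rintro rfl
      simp at hs
    have hs1' : s - 1 ≠ 0 := sub_ne_zero_of_ne hs1
    have h5 : LSeries (fun n => toA (bb (hφ (HCh_pr M))) L0.b0 n) s = LSeries (aL (pr M)) s := by
      rw [e0]; rfl
    have h6 : LSeries (fun n => toA (bb (hφ H)) L1.b0 n) s = LSeries (aL φ) s := by
      rw [e1]; rfl
    rw [h5, h6, dslope_of_ne _ hs1, slope_def_field, hg1, sub_zero, (hg0s s hs).2, hgs s hs]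
    field_simp

lemma hs_of {b : ℕ → ℂ} (b0 : b 0 = 0) {s : ℂ} (h : LSeriesSummable b s) :
    HasSum (fun n : ℕ => b n * (n : ℂ) ^ (-s)) (LSeries b s) := by
  have h1 : HasSum (LSeries.term b s) (LSeries b s) := h.hasSum
  rwa [show LSeries.term b s = fun n : ℕ => b n * (n : ℂ) ^ (-s) from
    funext fun n => Pool.Agent.H304R3.HK.LogDerH.term_b b b0 s n] at h1

lemma bb_hφ0 {M : ℕ} {φ : Gi → ℂ} (H : HCh M φ) : bb (hφ H) 0 = 0 :=
  Pool.Agent.H304R3.HK.bb_zero _ (toH_zero φ H.mul H.one)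

lemma contL (hL : S_LCON) {M : ℕ} (hM : 1 ≤ M) {φ : Gi → ℂ} (H : HCh M φ) :
    ∃ G : ℂ → ℂ, (∀ s, s ≠ 1 → DifferentiableAt ℂ G s) ∧
      ((∃ z, φ z ≠ 0 ∧ φ z ≠ 1) → Differentiable ℂ G) ∧
      ∀ s : ℂ, 1 < s.re → HasSum (fun n : ℕ => bb (hφ H) n * (n : ℂ) ^ (-s)) (G s) := by
  have e1 : aL φ = bb (hφ H) := funext fun n => aL_hφ H n
  by_cases hnp : ∃ z, φ z ≠ 0 ∧ φ z ≠ 1
  · obtain ⟨g, hg, hgs⟩ := (hL M φ hM H).1 hnp
    refine ⟨g, fun s _ => hg s, fun _ => hg, fun s hs => ?_⟩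
    obtain ⟨h1, h2⟩ := hgs s hs
    rw [h2, e1]
    rw [e1] at h1
    exact hs_of (bb_hφ0 H) h1
  · have hp : ∀ z, φ z ≠ 0 → φ z = 1 := by
      intro z hz
      by_contra hc
      exact hnp ⟨z, hz, hc⟩
    obtain ⟨g, hg, -, hgs⟩ := (hL M φ hM H).2 hp
    refine ⟨fun s => g s / (s - 1), fun s hs => ?_, fun h => absurd h hnp, fun s hs => ?_⟩
    · exact (hg s).div ((differentiableAt_id).sub_const 1) (sub_ne_zero_of_ne hs)
    · obtain ⟨h1, h2⟩ := hgs s hs
      have hs1 : s - 1 ≠ 0 := by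
        refine sub_ne_zero_of_ne ?_
        rintro rfl
        simp at hs
      have h3 : g s / (s - 1) = LSeries (bb (hφ H)) s := by
        rw [h2, e1]
        field_simp
      beta_reduce
      rw [h3]
      rw [e1] at h1
      exact hs_of (bb_hφ0 H) h1

theorem lnv (hL : S_LCON) : S_LNV := by
  intro M φ hM H g hg hcase t
  obtain ⟨G, hGd, hGe, hGs⟩ := contL hL hM (HCh_sq H)
  have Lh := lg_bb _ (hφ_UH hM H)
  have Lh2 := lg_bb _ (hφ_UH hM (HCh_sq H))
  have hG2 : G 2 ≠ 0 := F_ne_zero _ _ Lh2 G hGs 2 (by norm_num)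
  have hfun : (fun a => (hφ H a) ^ 2) = (hφ (HCh_sq H) : GaussianInt → ℂ) := by
    funext a
    rw [hφ_apply, hφ_apply]
    split_ifs <;> simp
  have sG : ∀ s : ℂ, 1 < s.re →
      HasSum (fun n : ℕ => bb (fun a => (hφ H a) ^ 2) n * (n : ℂ) ^ (-s)) (G s) := by
    intro s hs
    rw [hfun]
    exact hGs s hs
  have e1 : aL φ = bb (hφ H) := funext fun n => aL_hφ H n
  have hz0 : ∀ {x : ℝ}, x ≠ 0 → (1 + x * I : ℂ) ≠ 1 := by
    intro x hx h
    have := congrArg Complex.im h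
    simp at this
    exact hx this
  rcases hcase with ⟨hnp, hgs⟩ | ⟨hp, hgs⟩
  · obtain ⟨g', -, hg's⟩ := (hL M φ hM H).1 hnp
    have sF : ∀ s : ℂ, 1 < s.re → HasSum (fun n : ℕ => bb (hφ H) n * (n : ℂ) ^ (-s)) (g s) := by
      intro s hs
      have h1 := (hg's s hs).1
      rw [hgs s hs, e1]
      rw [e1] at h1
      exact hs_of (bb_hφ0 H) h1
    have hg2 : g 2 ≠ 0 := F_ne_zero _ _ Lh g sF 2 (by norm_num)
    obtain ⟨hFa, m, hm⟩ := order_fin' g hg hg2 (1 + t * I)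
    by_cases ht : t = 0
    · by_cases hsq : ∃ z, φ z ^ 2 ≠ 0 ∧ φ z ^ 2 ≠ 1
      · obtain ⟨hGa, m2, hm2⟩ := order_fin' G (hGe hsq) hG2 (1 + (2 * t : ℝ) * I)
        exact nz_gen (hφ H) (hφ_UH hM H) g G sF sG t _ _ rfl rfl hFa m hm hGa m2 hm2
      · have hq : ∀ z, φ z ≠ 0 → φ z ^ 2 = 1 := by
          intro z hz
          by_contra hc
          exact hsq ⟨z, pow_ne_zero 2 hz, hc⟩
        have := quad hL hM H hnp hq g hg hgs
        rw [ht]
        simpa using this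
    · obtain ⟨hGa, m2, hm2⟩ := order_fin G hGd hG2 (1 + (2 * t : ℝ) * I)
        (hz0 (mul_ne_zero two_ne_zero ht))
      exact nz_gen (hφ H) (hφ_UH hM H) g G sF sG t _ _ rfl rfl hFa m hm hGa m2 hm2
  · obtain ⟨g', hg', hg'1, hg's⟩ := (hL M φ hM H).2 hp
    by_cases ht : t = 0
    · have heq : g = g' := by
        have han : AnalyticOnNhd ℂ g Set.univ := fun z _ => hg.analyticAt z
        have han' : AnalyticOnNhd ℂ g' Set.univ := fun z _ => hg'.analyticAt z
        refine han.eq_of_eventuallyEq (z₀ := 2) han' ?_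
        have hU : IsOpen {z : ℂ | 1 < z.re} := isOpen_lt continuous_const continuous_re
        filter_upwards [hU.mem_nhds (by show (1 : ℝ) < (2 : ℂ).re; norm_num : (2 : ℂ) ∈ {z : ℂ | 1 < z.re})] with z hz
        rw [hgs z hz, (hg's z hz).2]
      rw [ht, heq]
      simpa using hg'1
    · set F : ℂ → ℂ := fun s => g s / (s - 1) with hF
      have hFd : ∀ s, s ≠ 1 → DifferentiableAt ℂ F s := fun s hs =>
        (hg s).div ((differentiableAt_id).sub_const 1) (sub_ne_zero_of_ne hs)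
      have sF : ∀ s : ℂ, 1 < s.re → HasSum (fun n : ℕ => bb (hφ H) n * (n : ℂ) ^ (-s)) (F s) := by
        intro s hs
        have h1 := (hg's s hs).1
        have hs1 : s - 1 ≠ 0 := by
          refine sub_ne_zero_of_ne ?_
          rintro rfl
          simp at hs
        have h3 : F s = LSeries (bb (hφ H)) s := by
          simp only [hF]
          rw [hgs s hs, e1]
          field_simp
        rw [h3]
        rw [e1] at h1
        exact hs_of (bb_hφ0 H) h1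
      have hF2 : F 2 ≠ 0 := F_ne_zero _ _ Lh F sF 2 (by norm_num)
      obtain ⟨hFa, m, hm⟩ := order_fin F hFd hF2 (1 + t * I) (hz0 ht)
      obtain ⟨hGa, m2, hm2⟩ := order_fin G hGd hG2 (1 + (2 * t : ℝ) * I)
        (hz0 (mul_ne_zero two_ne_zero ht))
      have h4 := nz_gen (hφ H) (hφ_UH hM H) F G sF sG t _ _ rfl rfl hFa m hm hGa m2 hm2
      intro h5
      apply h4
      simp only [hF]
      rw [h5, zero_div]

end Pool.Agent.W816.EC
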