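import Pool.Agent.W78.EC.Defs2
import Pool.Agent.H304R3.HK.LgB

/-!
Project EC (helper78), parts P3, P4: the characters `HCh M φ` of `Gi` as completely multiplicative
functions on Mathlib's Gaussian integers (`Pool.Agent.H304R3.HK`).
-/

set_option autoImplicit false

namespace Pool.Agent.W816.EC

open Finset Filter
open Pool.Agent.H376R2.MR
open Pool.Agent.W78.GA
open Pool.Agent.W78.EC
open Pool.Agent.H304R3.HK (UH CS bb LamK Lg ccf)

lemma hD : (0 : ℤ) ^ 2 < 4 * 1 := by norm_num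

/-- the Gaussian integer as an element of `Gi` -/
def gi (a : GaussianInt) : Gi := ⟨a.re, a.im⟩

lemma gi_mul (a b : GaussianInt) : gi (a * b) = gi a * gi b := by
  apply QuadraticAlgebra.ext
  · simp only [gi, QuadraticAlgebra.re_mul, Zsqrtd.re_mul]
  · simp only [gi, QuadraticAlgebra.im_mul, Zsqrtd.im_mul]
    ring

lemma gi_one : gi 1 = 1 := by
  apply QuadraticAlgebra.ext
  · rfl
  · rfl

lemma gi_eq_zero {a : GaussianInt} : gi a = 0 ↔ a = 0 := by
  constructor
  · intro h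
    have h1 := congrArg QuadraticAlgebra.re h
    have h2 := congrArg QuadraticAlgebra.im h
    simp only [gi, QuadraticAlgebra.re_zero, QuadraticAlgebra.im_zero] at h1 h2
    ext
    · simpa using h1
    · simpa using h2
  · rintro rfl
    apply QuadraticAlgebra.ext <;> simp [gi]

lemma nm_gi (a : GaussianInt) : ((nm (gi a) : ℕ) : ℤ) = a.re ^ 2 + a.im ^ 2 := by
  rw [nm_cast hD]
  simp only [gi]
  ring

/-- a completely multiplicative function on `Gi` as a function on `GaussianInt`, `0` at `0` -/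
noncomputable def toH (f : Gi → ℂ) (hmul : ∀ z z', f (z * z') = f z * f z') (hone : f 1 = 1) :
    GaussianInt →* ℂ where
  toFun a := if a = 0 then 0 else f (gi a)
  map_one' := by rw [if_neg one_ne_zero, gi_one, hone]
  map_mul' := by
    intro a b
    by_cases ha : a = 0
    · simp [ha]
    by_cases hb : b = 0
    · simp [hb]
    rw [if_neg ha, if_neg hb, if_neg (mul_ne_zero ha hb), gi_mul, hmul]

lemma toH_apply (f : Gi → ℂ) (hmul : ∀ z z', f (z * z') = f z * f z') (hone : f 1 = 1)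
    (a : GaussianInt) : toH f hmul hone a = if a = 0 then 0 else f (gi a) := rfl

lemma toH_zero (f : Gi → ℂ) (hmul : ∀ z z', f (z * z') = f z * f z') (hone : f 1 = 1) :
    toH f hmul hone 0 = 0 := by rw [toH_apply, if_pos rfl]

lemma toH_UH (f : Gi → ℂ) (hmul : ∀ z z', f (z * z') = f z * f z') (hone : f 1 = 1)
    (hunit : f ⟨0, 1⟩ = 1) (hb : ∀ z, z ≠ 0 → ‖f z‖ ≤ 1) : UH (toH f hmul hone) where
  h0 := toH_zero f hmul hone
  hb := by
    intro a
    rw [toH_apply]
    split_ifs with h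
    · simp
    · exact hb _ (fun hc => h (gi_eq_zero.1 hc))
  hi := by
    rw [toH_apply, if_neg]
    · exact hunit
    · intro h
      have := congrArg Zsqrtd.im h
      simp at this

lemma aL_toH (f : Gi → ℂ) (hmul : ∀ z z', f (z * z') = f z * f z') (hone : f 1 = 1) (n : ℕ) :
    aL f n = bb (toH f hmul hone) n := by
  rcases Nat.eq_zero_or_pos n with rfl | hn
  · rw [Pool.Agent.H304R3.HK.bb_zero _ (toH_zero f hmul hone)]
    unfold aL
    rw [Finset.sum_eq_zero, zero_div]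
    intro z hz
    rw [mem_filter, mem_ball hD] at hz
    omega
  · unfold aL bb
    rw [div_eq_inv_mul, one_div]
    congr 1
    refine Finset.sum_bij' (fun z _ => ((z.re, z.im) : ℤ × ℤ)) (fun p _ => (⟨p.1, p.2⟩ : Gi))
      ?_ ?_ ?_ ?_ ?_
    · intro z hz
      rw [mem_filter] at hz
      rw [Pool.Agent.H304R3.HK.M1.mem_CS]
      have := nm_cast hD z
      rw [hz.2] at this
      rw [this]
      ring
    · intro p hp
      obtain ⟨x, y⟩ := p
      rw [Pool.Agent.H304R3.HK.M1.mem_CS] at hp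
      have h1 := nm_cast hD (⟨x, y⟩ : Gi)
      have h2 : nm (⟨x, y⟩ : Gi) = n := by
        have : ((nm (⟨x, y⟩ : Gi) : ℕ) : ℤ) = n := by
          rw [h1, ← hp]
          ring
        exact_mod_cast this
      rw [mem_filter, mem_ball hD]
      rw [h2]
      exact ⟨⟨hn, le_rfl⟩, rfl⟩
    · intro z _; rfl
    · intro p _; rfl
    · intro z hz
      rw [mem_filter, mem_ball hD] at hz
      rw [toH_apply, if_neg]
      · rfl
      · intro hc
        have h1 : gi (⟨z.re, z.im⟩ : GaussianInt) = 0 := gi_eq_zero.2 hc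
        have h2 : z = 0 := h1
        rw [h2, nm_zero] at hz
        omega

/-! ### boundedness of characters -/

lemma phi_bdd {M : ℕ} (hM : 1 ≤ M) {φ : Gi → ℂ} (H : HCh M φ) :
    ∃ C : ℝ, ∀ z, ‖φ z‖ ≤ C := by
  refine ⟨∑ p ∈ (Finset.Ico (0 : ℤ) M) ×ˢ (Finset.Ico (0 : ℤ) M), ‖φ ⟨p.1, p.2⟩‖, fun z => ?_⟩
  have hM0 : (0 : ℤ) < M := by exact_mod_cast hM
  have h1 : φ z = φ ⟨z.re % M, z.im % M⟩ :=
    H.per _ _ (Int.dvd_self_sub_emod) (Int.dvd_self_sub_emod)
  rw [h1]
  refine Finset.single_le_sum (f := fun p : ℤ × ℤ => ‖φ ⟨p.1, p.2⟩‖)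
    (fun p _ => norm_nonneg _) (a := (z.re % M, z.im % M)) ?_
  rw [mem_product, mem_Ico, mem_Ico]
  exact ⟨⟨Int.emod_nonneg _ hM0.ne', Int.emod_lt_of_pos _ hM0⟩,
    ⟨Int.emod_nonneg _ hM0.ne', Int.emod_lt_of_pos _ hM0⟩⟩

lemma phi_pow {M : ℕ} {φ : Gi → ℂ} (H : HCh M φ) (z : Gi) (k : ℕ) : φ (z ^ k) = φ z ^ k := by
  induction k with
  | zero => rw [pow_zero, pow_zero, H.one]
  | succ k ih => rw [pow_succ, pow_succ, H.mul, ih]

lemma phi_le {M : ℕ} (hM : 1 ≤ M) {φ : Gi → ℂ} (H : HCh M φ) (z : Gi) : ‖φ z‖ ≤ 1 := by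
  obtain ⟨C, hC⟩ := phi_bdd hM H
  by_contra hc
  push Not at hc
  have h1 : Tendsto (fun k : ℕ => ‖φ z‖ ^ k) atTop atTop := tendsto_pow_atTop_atTop_of_one_lt hc
  obtain ⟨k, hk⟩ := (h1.eventually (eventually_gt_atTop C)).exists
  have h2 := hC (z ^ k)
  rw [phi_pow H, norm_pow] at h2
  linarith

/-- the function on `GaussianInt` belonging to a character -/
noncomputable def hφ {M : ℕ} {φ : Gi → ℂ} (H : HCh M φ) : GaussianInt →* ℂ :=
  toH φ H.mul H.one

lemma hφ_UH {M : ℕ} (hM : 1 ≤ M) {φ : Gi → ℂ} (H : HCh M φ) : UH (hφ H) :=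
  toH_UH φ H.mul H.one H.unit (fun z _ => phi_le hM H z)

lemma aL_hφ {M : ℕ} {φ : Gi → ℂ} (H : HCh M φ) (n : ℕ) : aL φ n = bb (hφ H) n :=
  aL_toH φ H.mul H.one n

lemma HCh_sq {M : ℕ} {φ : Gi → ℂ} (H : HCh M φ) : HCh M (fun z => φ z ^ 2) where
  per := fun z z' h1 h2 => by rw [H.per z z' h1 h2]
  mul := fun z z' => by rw [H.mul, mul_pow]
  one := by rw [H.one, one_pow]
  unit := by rw [H.unit, one_pow]
  ne := fun z => by
    rw [← H.ne z, ne_eq, ne_eq, pow_eq_zero_iff two_ne_zero]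

lemma HCh_conj {M : ℕ} {φ : Gi → ℂ} (H : HCh M φ) :
    HCh M (fun z => (starRingEnd ℂ) (φ z)) where
  per := fun z z' h1 h2 => by rw [H.per z z' h1 h2]
  mul := fun z z' => by rw [H.mul, map_mul]
  one := by rw [H.one, map_one]
  unit := by rw [H.unit, map_one]
  ne := fun z => by
    rw [← H.ne z, ne_eq, ne_eq, map_eq_zero]

open scoped Classical in
/-- the principal character modulo `M` -/
noncomputable def pr (M : ℕ) (z : Gi) : ℂ := if IsCoprime z (M : Gi) then 1 else 0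

lemma coprime_per {M : ℕ} {z z' : Gi} (h1 : (M : ℤ) ∣ z.re - z'.re) (h2 : (M : ℤ) ∣ z.im - z'.im) :
    IsCoprime z (M : Gi) → IsCoprime z' (M : Gi) := by
  intro h
  have h3 : (M : Gi) ∣ z - z' := by
    rw [natCast_dvd]
    simpa using ⟨h1, h2⟩
  obtain ⟨u, hu⟩ := h3
  have h4 : z' = z + (-u) * (M : Gi) := by
    linear_combination (-1 : Gi) * hu
  rw [h4]
  exact IsCoprime.add_mul_right_left h (-u)

lemma HCh_pr (M : ℕ) : HCh M (pr M) where
  per := fun z z' h1 h2 => by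
    unfold pr
    have e : IsCoprime z (M : Gi) ↔ IsCoprime z' (M : Gi) :=
      ⟨coprime_per h1 h2, coprime_per (by rw [← dvd_neg]; simpa using h1)
        (by rw [← dvd_neg]; simpa using h2)⟩
    by_cases h : IsCoprime z (M : Gi)
    · rw [if_pos h, if_pos (e.1 h)]
    · rw [if_neg h, if_neg (fun h' => h (e.2 h'))]
  mul := fun z z' => by
    unfold pr
    by_cases h1 : IsCoprime z (M : Gi)
    · by_cases h2 : IsCoprime z' (M : Gi)
      · rw [if_pos h1, if_pos h2, if_pos (h1.mul_left h2), one_mul]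
      · rw [if_neg h2, mul_zero, if_neg]
        intro h
        exact h2 (IsCoprime.of_mul_left_right h)
    · rw [if_neg h1, zero_mul, if_neg]
      intro h
      exact h1 (IsCoprime.of_mul_left_left h)
  one := by
    unfold pr
    rw [if_pos isCoprime_one_left]
  unit := by
    unfold pr
    rw [if_pos]
    have hu : (⟨0, 1⟩ : Gi) * ⟨0, -1⟩ = 1 := by
      apply QuadraticAlgebra.ext
      · rfl
      · rfl
    exact ⟨⟨0, -1⟩, 0, by rw [mul_comm, hu, zero_mul, add_zero]⟩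
  ne := fun z => by
    unfold pr
    split_ifs with h
    · simp [h]
    · simp [h]

end Pool.Agent.W816.EC
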