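import Pool.Agent.W816.EC.NzGen

set_option autoImplicit false

/-!
Project EC, part P3: `L(1, φ) ≠ 0` for real characters by Landau's theorem.
-/

open Finset Filter Topology Complex
open ArithmeticFunction (vonMangoldt)
open scoped ComplexOrder

namespace Pool.Agent.W816.EC

open Pool.Agent.H304R3.HK (UH CS bb LamK Lg ccf lg_bb lam_eq lam_one nzr_LamK_nonneg ts ee)

/-- `b` as an arithmetic function -/
noncomputable def toA (b : ℕ → ℂ) (b0 : b 0 = 0) : ArithmeticFunction ℂ := ⟨b, b0⟩

/-- `Λ c` as an arithmetic function -/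
noncomputable def vA (c : ℕ → ℂ) : ArithmeticFunction ℂ :=
  ⟨fun n => (vonMangoldt n : ℂ) * c n, by simp⟩

lemma toA_apply (b : ℕ → ℂ) (b0 : b 0 = 0) (n : ℕ) : toA b b0 n = b n := rfl

lemma vA_apply (c : ℕ → ℂ) (n : ℕ) : vA c n = (vonMangoldt n : ℂ) * c n := rfl

lemma lg_conv {b c : ℕ → ℂ} (H : Lg b c) (n : ℕ) :
    toA b H.b0 n * (Real.log n : ℂ) = (vA c * toA b H.b0) n := by
  rcases eq_or_ne n 0 with rfl | hn
  · simp
  · rw [ArithmeticFunction.mul_apply, Nat.sum_divisorsAntidiagonal (f := fun x y => vA c x * toA b H.b0 y),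
      toA_apply, H.lg n hn]
    rfl

lemma lg_prod {b c b' c' : ℕ → ℂ} (H : Lg b c) (H' : Lg b' c') (n : ℕ) :
    (toA b H.b0 * toA b' H'.b0) n * (Real.log n : ℂ) =
      ((vA c + vA c') * (toA b H.b0 * toA b' H'.b0)) n := by
  have e1 : (toA b H.b0 * toA b' H'.b0) n * (Real.log n : ℂ) =
      ((vA c * toA b H.b0) * toA b' H'.b0) n + (toA b H.b0 * (vA c' * toA b' H'.b0)) n := by
    rw [ArithmeticFunction.mul_apply, ArithmeticFunction.mul_apply, ArithmeticFunction.mul_apply (g := vA c' * toA b' H'.b0),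
      Finset.sum_mul, ← Finset.sum_add_distrib]
    refine Finset.sum_congr rfl fun p hp => ?_
    rw [Nat.mem_divisorsAntidiagonal] at hp
    have h1 : p.1 ≠ 0 := fun h => hp.2 (by rw [← hp.1, h, zero_mul])
    have h2 : p.2 ≠ 0 := fun h => hp.2 (by rw [← hp.1, h, mul_zero])
    rw [← lg_conv H, ← lg_conv H', ← hp.1, Nat.cast_mul,
      Real.log_mul (by exact_mod_cast h1) (by exact_mod_cast h2)]
    push_cast
    ring
  rw [e1, ← ArithmeticFunction.add_apply]
  congr 1
  ring

lemma prod_nonneg {b c b' c' : ℕ → ℂ} (H : Lg b c) (H' : Lg b' c')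
    (hc : ∀ n, 0 ≤ (vA c + vA c') n) (n : ℕ) : 0 ≤ (toA b H.b0 * toA b' H'.b0) n := by
  induction n using Nat.strong_induction_on with
  | _ n ih =>
    rcases Nat.lt_or_ge n 2 with hn | hn
    · interval_cases n
      · simp
      · rw [ArithmeticFunction.mul_apply_one, toA_apply, toA_apply, H.b1, H'.b1]
        simp
    · have hlog : 0 < Real.log n := Real.log_pos (by exact_mod_cast hn)
      have h1 := lg_prod H H' n
      have h2 : 0 ≤ ((vA c + vA c') * (toA b H.b0 * toA b' H'.b0)) n := by
        rw [ArithmeticFunction.mul_apply]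
        refine Finset.sum_nonneg fun p hp => ?_
        rw [Nat.mem_divisorsAntidiagonal] at hp
        rcases Nat.lt_or_ge p.1 2 with h3 | h3
        · have h4 : (vA c + vA c') p.1 = 0 := by
            rw [ArithmeticFunction.add_apply, vA_apply, vA_apply]
            interval_cases h5 : p.1 <;> simp
          rw [h4, zero_mul]
        · refine mul_nonneg (hc _) (ih _ ?_)
          have h5 : p.2 ≠ 0 := fun h => hp.2 (by rw [← hp.1, h, mul_zero])
          have : p.2 * 2 ≤ p.2 * p.1 := Nat.mul_le_mul_left _ h3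
          have h6 : p.2 * p.1 = n := by rw [mul_comm]; exact hp.1
          omega
      have h3 : (toA b H.b0 * toA b' H'.b0) n =
          ((vA c + vA c') * (toA b H.b0 * toA b' H'.b0)) n * ((Real.log n)⁻¹ : ℝ) := by
        have hne : (Real.log n : ℂ) ≠ 0 := by exact_mod_cast hlog.ne'
        rw [← h1, mul_assoc, Complex.ofReal_inv, mul_inv_cancel₀ hne, mul_one]
      rw [h3]
      refine mul_nonneg h2 ?_
      have : (0 : ℝ) ≤ (Real.log n)⁻¹ := by positivity
      exact_mod_cast this

lemma prod_lower {b c b' c' : ℕ → ℂ} (H : Lg b c) (H' : Lg b' c')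
    (hc : ∀ n, 0 ≤ (vA c + vA c') n) (p : ℕ) (hp : p.Prime)
    (h4 : ∀ j : ℕ, 1 ≤ j → (vA c + vA c') (p ^ (4 * j)) = ((4 * Real.log p : ℝ) : ℂ)) (k : ℕ) :
    1 ≤ (toA b H.b0 * toA b' H'.b0) (p ^ (4 * k)) := by
  induction k using Nat.strong_induction_on with
  | _ k ih =>
    rcases Nat.eq_zero_or_pos k with rfl | hk
    · rw [mul_zero, pow_zero, ArithmeticFunction.mul_apply_one, toA_apply, toA_apply, H.b1, H'.b1]
      simp
    · have hlp : 0 < Real.log p := Real.log_pos (by exact_mod_cast hp.one_lt)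
      have hlog : Real.log ((p ^ (4 * k) : ℕ) : ℝ) = 4 * k * Real.log p := by
        push_cast
        rw [Real.log_pow]
        push_cast
        ring
      have hk' : (0 : ℝ) < k := by exact_mod_cast hk
      have hlog0 : 0 < Real.log ((p ^ (4 * k) : ℕ) : ℝ) := by rw [hlog]; positivity
      have h1 := lg_prod H H' (p ^ (4 * k))
      have h2 : ((Real.log ((p ^ (4 * k) : ℕ) : ℝ) : ℝ) : ℂ) ≤
          ((vA c + vA c') * (toA b H.b0 * toA b' H'.b0)) (p ^ (4 * k)) := by
        rw [ArithmeticFunction.mul_apply]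
        set f : ℕ × ℕ → ℂ := fun q => (vA c + vA c') q.1 * (toA b H.b0 * toA b' H'.b0) q.2 with hf
        have hf0 : ∀ q, 0 ≤ f q := fun q => mul_nonneg (hc _) (prod_nonneg H H' hc _)
        set T : Finset (ℕ × ℕ) := (Finset.Icc 1 k).image
          (fun j => (p ^ (4 * j), p ^ (4 * (k - j)))) with hT
        have hsub : T ⊆ (p ^ (4 * k)).divisorsAntidiagonal := by
          intro q hq
          rw [hT, Finset.mem_image] at hq
          obtain ⟨j, hj, rfl⟩ := hq
          rw [Finset.mem_Icc] at hj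
          rw [Nat.mem_divisorsAntidiagonal]
          refine ⟨?_, pow_ne_zero _ hp.ne_zero⟩
          rw [← pow_add]
          congr 1
          omega
        refine le_trans ?_ (Finset.sum_le_sum_of_subset_of_nonneg hsub fun q _ _ => hf0 q)
        have hinj : Set.InjOn (fun j => (p ^ (4 * j), p ^ (4 * (k - j)))) (Finset.Icc 1 k : Set ℕ) := by
          intro i _ j _ hij
          have h5 : p ^ (4 * i) = p ^ (4 * j) := congrArg Prod.fst hij
          have := Nat.pow_right_injective hp.two_le h5
          omega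
        rw [hT, Finset.sum_image hinj]
        have h6 : ∀ j ∈ Finset.Icc 1 k, ((4 * Real.log p : ℝ) : ℂ) ≤
            f (p ^ (4 * j), p ^ (4 * (k - j))) := by
          intro j hj
          rw [Finset.mem_Icc] at hj
          simp only [hf]
          rw [h4 j hj.1]
          have h7 := ih (k - j) (by omega)
          have h8 : (0 : ℂ) ≤ ((4 * Real.log p : ℝ) : ℂ) := by
            have : (0 : ℝ) ≤ 4 * Real.log p := by positivity
            exact_mod_cast this
          calc ((4 * Real.log p : ℝ) : ℂ) = ((4 * Real.log p : ℝ) : ℂ) * 1 := by rw [mul_one]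
            _ ≤ _ := mul_le_mul_of_nonneg_left h7 h8
        refine le_trans ?_ (Finset.sum_le_sum h6)
        rw [Finset.sum_const, Nat.card_Icc, hlog, nsmul_eq_mul]
        apply le_of_eq
        push_cast
        ring
      have hne : (Real.log ((p ^ (4 * k) : ℕ) : ℝ) : ℂ) ≠ 0 := by exact_mod_cast hlog0.ne'
      have h3 : (toA b H.b0 * toA b' H'.b0) (p ^ (4 * k)) =
          ((vA c + vA c') * (toA b H.b0 * toA b' H'.b0)) (p ^ (4 * k)) *
            (((Real.log ((p ^ (4 * k) : ℕ) : ℝ))⁻¹ : ℝ) : ℂ) := by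
        rw [← h1, mul_assoc, Complex.ofReal_inv, mul_inv_cancel₀ hne, mul_one]
      rw [h3]
      have h9 : (0 : ℂ) ≤ (((Real.log ((p ^ (4 * k) : ℕ) : ℝ))⁻¹ : ℝ) : ℂ) := by
        have : (0 : ℝ) ≤ (Real.log ((p ^ (4 * k) : ℕ) : ℝ))⁻¹ := by positivity
        exact_mod_cast this
      calc (1 : ℂ) = ((Real.log ((p ^ (4 * k) : ℕ) : ℝ) : ℝ) : ℂ) *
            (((Real.log ((p ^ (4 * k) : ℕ) : ℝ))⁻¹ : ℝ) : ℂ) := by
            rw [Complex.ofReal_inv, mul_inv_cancel₀ hne]
        _ ≤ _ := mul_le_mul_of_nonneg_right h2 h9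

/-- Landau: an entire function with nonnegative coefficients that are `≥ 1` at `p ^ (4 k)` does not
exist -/
lemma landau (a : ArithmeticFunction ℂ) (ha : ∀ n, 0 ≤ a n) (ha1 : a 1 = 1) (p : ℕ) (hp : p.Prime)
    (hk : ∀ k : ℕ, 1 ≤ a (p ^ (4 * k))) (f : ℂ → ℂ) (hf : Differentiable ℂ f)
    (hs : ∀ s : ℂ, 1 < s.re → LSeriesSummable (fun n => a n) s ∧ f s = LSeries (fun n => a n) s) :
    False := by
  -- lower bound of `f 0` by any finite sum
  have key : ∀ T : Finset ℕ, 1 ∉ T → 0 ∉ T → (∑ n ∈ T, a n) ≤ f 0 := by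
    intro T hT1 hT0
    set e : ℕ → ℂ := fun n => if n ∈ T then a n else 0 with he
    set aT : ℕ → ℂ := fun n => if n ∈ T then 0 else a n with haT
    have hterm : ∀ (s : ℂ) (n : ℕ), LSeries.term aT s n = LSeries.term (fun n => a n) s n -
        LSeries.term e s n := by
      intro s n
      rcases eq_or_ne n 0 with rfl | hn
      · simp
      · rw [LSeries.term_of_ne_zero hn, LSeries.term_of_ne_zero hn, LSeries.term_of_ne_zero hn,
          ← sub_div]
        congr 1
        simp only [he, haT]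
        split_ifs <;> simp
    have hesum : ∀ s : ℂ, HasSum (LSeries.term e s) (∑ n ∈ T, LSeries.term e s n) := by
      intro s
      refine hasSum_sum_of_ne_finset_zero fun n hn => ?_
      rcases eq_or_ne n 0 with rfl | hn0
      · simp
      · rw [LSeries.term_of_ne_zero hn0]
        simp only [he]
        rw [if_neg hn, zero_div]
    have hTsum : ∀ s : ℂ, 1 < s.re → HasSum (LSeries.term aT s)
        (f s - ∑ n ∈ T, LSeries.term e s n) := by
      intro s hs1
      have h1 := (hs s hs1).1.hasSum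
      have h2 : (∑' n, LSeries.term (fun n => a n) s n) = f s := (hs s hs1).2.symm
      rw [h2] at h1
      have h3 := h1.sub (hesum s)
      rw [show LSeries.term aT s = fun n => LSeries.term (fun n => a n) s n -
        LSeries.term e s n from funext (hterm s)]
      exact h3
    have hE : ∀ s : ℂ, (∑ n ∈ T, LSeries.term e s n) = ∑ n ∈ T, a n * (n : ℂ) ^ (-s) := by
      intro s
      refine Finset.sum_congr rfl fun n hn => ?_
      have hn0 : n ≠ 0 := fun h => hT0 (h ▸ hn)
      rw [LSeries.term_of_ne_zero hn0]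
      simp only [he]
      rw [if_pos hn, div_eq_mul_inv, ← Complex.cpow_neg]
    set fT : ℂ → ℂ := fun s => f s - ∑ n ∈ T, a n * (n : ℂ) ^ (-s) with hfT
    have hfTd : Differentiable ℂ fT := by
      refine hf.sub ?_
      refine Differentiable.fun_sum fun n hn => ?_
      have hn0 : n ≠ 0 := fun h => hT0 (h ▸ hn)
      have hn0' : (n : ℂ) ≠ 0 := by exact_mod_cast hn0
      refine Differentiable.const_mul ?_ _
      intro s
      exact (differentiableAt_id.neg).const_cpow (Or.inl hn0')
    have habs : LSeries.abscissaOfAbsConv aT ≤ (1 : ℝ) := by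
      refine LSeries.abscissaOfAbsConv_le_of_forall_lt_LSeriesSummable fun y hy => ?_
      exact (hTsum y (by simpa using hy)).summable
    have hpos := LSeries.positive_of_differentiable_of_eqOn (a := aT) (f := fT) (x := 1)
      (fun n => by
        simp only [haT]
        split_ifs
        · exact le_rfl
        · exact ha n)
      (by
        simp only [haT]
        rw [if_neg hT1, ha1]
        exact zero_lt_one) hfTd habs
      (fun s hs1 => by
        have h1 := (hTsum s hs1).tsum_eq
        simp only [hfT]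
        rw [← hE]
        exact h1.symm) 0
    have h0 : fT ((0 : ℝ) : ℂ) = f 0 - ∑ n ∈ T, a n := by
      simp only [hfT]
      simp
    rw [h0] at hpos
    exact sub_nonneg.1 hpos.le
  -- contradiction
  obtain ⟨K, hK⟩ := exists_nat_gt (f 0).re
  have h1 := key ((Finset.Icc 1 K).image (fun k => p ^ (4 * k))) (by
    intro h
    rw [Finset.mem_image] at h
    obtain ⟨k, hk1, hk2⟩ := h
    rw [Finset.mem_Icc] at hk1
    have : 1 < p ^ (4 * k) := Nat.one_lt_pow (by omega) hp.one_lt
    omega) (by
    intro h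
    rw [Finset.mem_image] at h
    obtain ⟨k, hk1, hk2⟩ := h
    exact pow_ne_zero _ hp.ne_zero hk2)
  have hinj : Set.InjOn (fun k => p ^ (4 * k)) (Finset.Icc 1 K : Set ℕ) := by
    intro i _ j _ hij
    have := Nat.pow_right_injective hp.two_le hij
    omega
  rw [Finset.sum_image hinj] at h1
  have h2 : (K : ℂ) ≤ ∑ k ∈ Finset.Icc 1 K, a (p ^ (4 * k)) := by
    have : (K : ℂ) = ∑ k ∈ Finset.Icc 1 K, (1 : ℂ) := by simp
    rw [this]
    exact Finset.sum_le_sum fun k _ => hk k
  have h3 := (h2.trans h1)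
  have h4 := (Complex.le_def.1 h3).1
  simp at h4
  linarith

end Pool.Agent.W816.EC
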