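import Pool.Agent.W816.EC.Bridge
import Pool.Agent.H304R3.HK.NzrHof
import Pool.Agent.H304R3.HK.LamH
import Pool.Agent.H304R3.HK.LogDerH

set_option autoImplicit false

/-!
Project EC, part P3: the general non-vanishing lemma on the line `Re s = 1`
(after `Pool.Agent.H304R3.HK.NzrHof`, helper666, and `Pool.Agent.H82R3.AR.Nzr`).
-/

open Finset Filter Topology Complex
open ArithmeticFunction (vonMangoldt)
open ArithmeticFunction.vonMangoldt

namespace Pool.Agent.W816.EC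

open Pool.Agent.H304R2.EC (summable_vM limS1 summable_term LSeries_eq_tsum)
open Pool.Agent.H304R3.HK (UH CS bb LamK Lg ccf nzr_LamK_nonneg nzr_chi_bound nzr_limA
  nzr_ineq nzr_sq nzr_sq_UH lg_bb lam_eq lam_one F_ne_zero F_ld)

theorem tendsto_logDeriv' (F : ℂ → ℂ) (z0 : ℂ) (han : AnalyticAt ℂ F z0) (m : ℕ)
    (hm : analyticOrderAt F z0 = m) :
    Tendsto (fun σ : ℝ => ((σ : ℂ)) * (deriv F (z0 + σ) / F (z0 + σ))) (𝓝[>] 0) (𝓝 (m : ℂ)) := by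
  obtain ⟨g, hg, hg0, hFg⟩ := (han.analyticOrderAt_eq_natCast).1 hm
  -- near z0, deriv F z = m (z-z0)^(m-1) g z + (z-z0)^m g' z
  have hev : ∀ᶠ z in 𝓝 z0, F z = (z - z0) ^ m • g z ∧ DifferentiableAt ℂ g z ∧ g z ≠ 0 ∧
      deriv F z = m * (z - z0) ^ (m - 1) * g z + (z - z0) ^ m * deriv g z := by
    have h1 : ∀ᶠ z in 𝓝 z0, F =ᶠ[𝓝 z] fun z => (z - z0) ^ m • g z := hFg.eventually_nhds
    have h2 : ∀ᶠ z in 𝓝 z0, AnalyticAt ℂ g z := hg.eventually_analyticAt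
    have h3 : ∀ᶠ z in 𝓝 z0, g z ≠ 0 := hg.continuousAt.eventually_ne hg0
    filter_upwards [h1, h2, h3] with z h1 h2 h3
    refine ⟨h1.self_of_nhds, h2.differentiableAt, h3, ?_⟩
    rw [h1.deriv_eq]
    have : HasDerivAt (fun z => (z - z0) ^ m • g z)
        (m * (z - z0) ^ (m - 1) * g z + (z - z0) ^ m * deriv g z) z := by
      have ha : HasDerivAt (fun z : ℂ => (z - z0) ^ m) (m * (z - z0) ^ (m - 1)) z := by
        have := ((hasDerivAt_id z).sub_const z0).fun_pow m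
        simpa using this
      have := ha.fun_mul h2.differentiableAt.hasDerivAt
      simpa [smul_eq_mul] using this
    exact this.deriv
  have hz : Tendsto (fun σ : ℝ => z0 + (σ : ℂ)) (𝓝[>] 0) (𝓝 z0) := by
    have : Tendsto (fun σ : ℝ => z0 + (σ : ℂ)) (𝓝 0) (𝓝 (z0 + ((0 : ℝ) : ℂ))) :=
      (continuous_const.add Complex.continuous_ofReal).tendsto 0
    simp only [Complex.ofReal_zero, add_zero] at this
    exact this.mono_left nhdsWithin_le_nhds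
  have hlim : Tendsto (fun σ : ℝ => (m : ℂ) + (σ : ℂ) * (deriv g (z0 + σ) / g (z0 + σ)))
      (𝓝[>] 0) (𝓝 ((m : ℂ) + ((0 : ℝ) : ℂ) * (deriv g z0 / g z0))) := by
    refine tendsto_const_nhds.add ?_
    refine Tendsto.mul ?_ ?_
    · exact (Complex.continuous_ofReal.tendsto 0).mono_left nhdsWithin_le_nhds
    · refine Tendsto.div ?_ ?_ hg0
      · exact (hg.deriv.continuousAt.tendsto).comp hz
      · exact (hg.continuousAt.tendsto).comp hz
  simp only [Complex.ofReal_zero, zero_mul, add_zero] at hlim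
  refine hlim.congr' ?_
  filter_upwards [hz.eventually hev, self_mem_nhdsWithin] with σ h hσ
  obtain ⟨e1, _, e3, e4⟩ := h
  have hσ0 : (σ : ℂ) ≠ 0 := by
    exact_mod_cast (ne_of_gt hσ)
  rw [e4, e1]
  simp only [add_sub_cancel_left, smul_eq_mul]
  rcases Nat.eq_zero_or_pos m with h0 | h0
  · subst h0; simp
  · have : (σ : ℂ) ^ m = σ * (σ : ℂ) ^ (m - 1) := by
      rw [← pow_succ']; congr 1; omega
    rw [this]
    field_simp

theorem order_fin (G : ℂ → ℂ) (hG : ∀ s : ℂ, s ≠ 1 → DifferentiableAt ℂ G s) (h2 : G 2 ≠ 0)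
    (z : ℂ) (hz : z ≠ 1) : AnalyticAt ℂ G z ∧ ∃ m : ℕ, analyticOrderAt G z = m := by
  have hopen : IsOpen ({1}ᶜ : Set ℂ) := isOpen_compl_singleton
  have hd : DifferentiableOn ℂ G ({1}ᶜ : Set ℂ) := fun s hs => (hG s hs).differentiableWithinAt
  have han : AnalyticOnNhd ℂ G ({1}ᶜ : Set ℂ) := hd.analyticOnNhd hopen
  have hconn : IsPreconnected ({1}ᶜ : Set ℂ) :=
    (isConnected_compl_singleton_of_one_lt_rank (by rw [Complex.rank_real_complex]; norm_num)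
      1).isPreconnected
  refine ⟨han z hz, ?_⟩
  have hne : analyticOrderAt G z ≠ ⊤ := by
    intro htop
    rw [analyticOrderAt_eq_top] at htop
    have h3 := han.eqOn_zero_of_preconnected_of_eventuallyEq_zero hconn hz htop
    exact h2 (h3 (by simp : (2 : ℂ) ∈ ({1}ᶜ : Set ℂ)))
  obtain ⟨m, hm⟩ := ENat.ne_top_iff_exists.1 hne
  exact ⟨m, hm.symm⟩

theorem order_fin' (G : ℂ → ℂ) (hG : Differentiable ℂ G) (h2 : G 2 ≠ 0)
    (z : ℂ) : AnalyticAt ℂ G z ∧ ∃ m : ℕ, analyticOrderAt G z = m := by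
  refine ⟨hG.analyticAt z, ?_⟩
  exact Pool.Agent.H304R3.HK.nzr_order G hG h2 z

theorem nz_gen (h : GaussianInt →* ℂ) (hh : UH h) (F G : ℂ → ℂ)
    (sF : ∀ s : ℂ, 1 < s.re → HasSum (fun n : ℕ => bb h n * (n : ℂ) ^ (-s)) (F s))
    (sG : ∀ s : ℂ, 1 < s.re →
      HasSum (fun n : ℕ => bb (fun a => (h a) ^ 2) n * (n : ℂ) ^ (-s)) (G s))
    (t : ℝ) (z0 z1 : ℂ) (hz0 : z0 = 1 + t * I) (hz1 : z1 = 1 + (2 * t : ℝ) * I)
    (hFa : AnalyticAt ℂ F z0) (m : ℕ) (hm : analyticOrderAt F z0 = m)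
    (hGa : AnalyticAt ℂ G z1) (m2 : ℕ) (hm2 : analyticOrderAt G z1 = m2) : F z0 ≠ 0 := by
  intro h0
  have hz0' : z0 = 1 + t * I := hz0
  have hh2 := nzr_sq_UH h hh
  have hlg := lg_bb h hh
  have hlg2 := lg_bb (nzr_sq h) hh2
  have sG' : ∀ s : ℂ, 1 < s.re →
      HasSum (fun n : ℕ => bb (nzr_sq h) n * (n : ℂ) ^ (-s)) (G s) := sG
  have hm1 : 1 ≤ m := by
    by_contra hc
    have : m = 0 := by omega
    rw [this] at hm
    have h2 := hFa.analyticOrderAt_eq_zero.1 (by rw [hm]; rfl)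
    exact h2 h0
  have hL := tendsto_logDeriv' F z0 hFa m hm
  have hL2 := tendsto_logDeriv' G z1 hGa m2 hm2
  have h1 := nzr_limA
  have hcomb := ((h1.const_mul 3).sub (hL.const_mul 4)).sub hL2
  have hre : Tendsto (fun σ : ℝ => ((3 * ((σ : ℂ) *
      ∑' n : ℕ, ((vonMangoldt n * (1 + ((ZMod.χ₄ (n : ZMod 4) : ℤ) : ℝ)) : ℝ) : ℂ) *
        (n : ℂ) ^ (-(1 + σ : ℂ))) -
      4 * (((σ : ℂ)) * (deriv F (z0 + σ) / F (z0 + σ)))) -
      (σ : ℂ) * (deriv G (z1 + σ) / G (z1 + σ))).re) (𝓝[>] 0)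
      (𝓝 ((3 * 1 - 4 * (m : ℂ) - (m2 : ℂ) : ℂ).re)) :=
    (Complex.continuous_re.tendsto _).comp hcomb
  have hpos : ∀ᶠ σ : ℝ in 𝓝[>] 0, 0 ≤ ((3 * ((σ : ℂ) *
      ∑' n : ℕ, ((vonMangoldt n * (1 + ((ZMod.χ₄ (n : ZMod 4) : ℤ) : ℝ)) : ℝ) : ℂ) *
        (n : ℂ) ^ (-(1 + σ : ℂ))) -
      4 * (((σ : ℂ)) * (deriv F (z0 + σ) / F (z0 + σ)))) -
      (σ : ℂ) * (deriv G (z1 + σ) / G (z1 + σ))).re := by
    filter_upwards [self_mem_nhdsWithin] with σ hσ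
    have hσ0 : (0 : ℝ) < σ := hσ
    have hs0 : 1 < (z0 + σ).re := by
      rw [hz0']; simp; linarith
    have hs1 : 1 < (z1 + σ).re := by
      rw [hz1]; simp; linarith
    rw [F_ld _ _ hlg F sF (z0 + σ) hs0, F_ld _ _ hlg2 G sG' (z1 + σ) hs1]
    have sum1 : Summable (fun n : ℕ =>
        ((vonMangoldt n * (1 + ((ZMod.χ₄ (n : ZMod 4) : ℤ) : ℝ)) : ℝ) : ℂ) *
        (n : ℂ) ^ (-(1 + σ : ℂ))) := by
      refine summable_term _ 2 ?_ _ (by simp; linarith)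
      intro n
      rw [Complex.norm_real, Real.norm_eq_abs, abs_mul,
        abs_of_nonneg ArithmeticFunction.vonMangoldt_nonneg, mul_comm]
      exact mul_le_mul_of_nonneg_right (nzr_chi_bound n) ArithmeticFunction.vonMangoldt_nonneg
    have sumc : ∀ (c : ℕ → ℂ), (∀ n, ‖c n‖ ≤ 2) → ∀ s : ℂ, 1 < s.re →
        Summable (fun n : ℕ => ((vonMangoldt n : ℂ) * c n) * (n : ℂ) ^ (-s)) := by
      intro c hc s hs
      refine summable_term _ 2 ?_ _ hs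
      intro n
      rw [norm_mul, Complex.norm_real, Real.norm_of_nonneg ArithmeticFunction.vonMangoldt_nonneg,
        mul_comm]
      exact mul_le_mul_of_nonneg_right (hc n) ArithmeticFunction.vonMangoldt_nonneg
    have sum2 := sumc _ hlg.cd (z0 + σ) hs0
    have sum3 := sumc _ hlg2.cd (z1 + σ) hs1
    have htot : (3 * ((σ : ℂ) *
      ∑' n : ℕ, ((vonMangoldt n * (1 + ((ZMod.χ₄ (n : ZMod 4) : ℤ) : ℝ)) : ℝ) : ℂ) *
        (n : ℂ) ^ (-(1 + σ : ℂ))) -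
      4 * (((σ : ℂ)) * -∑' n : ℕ, ((vonMangoldt n : ℂ) * ccf h n) * (n : ℂ) ^ (-(z0 + σ)))) -
      (σ : ℂ) * -∑' n : ℕ, ((vonMangoldt n : ℂ) * ccf (nzr_sq h) n) * (n : ℂ) ^ (-(z1 + σ)) =
      (σ : ℂ) * ∑' n : ℕ, (3 * (((vonMangoldt n * (1 + ((ZMod.χ₄ (n : ZMod 4) : ℤ) : ℝ)) : ℝ) : ℂ) *
        (n : ℂ) ^ (-(1 + σ : ℂ))) +
        4 * (((vonMangoldt n : ℂ) * ccf h n) * (n : ℂ) ^ (-(z0 + σ))) +
        ((vonMangoldt n : ℂ) * ccf (nzr_sq h) n) * (n : ℂ) ^ (-(z1 + σ))) := by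
      rw [Summable.tsum_add ((sum1.mul_left 3).add (sum2.mul_left 4)) sum3,
        Summable.tsum_add (sum1.mul_left 3) (sum2.mul_left 4), tsum_mul_left, tsum_mul_left]
      ring
    rw [htot, Complex.re_ofReal_mul]
    refine mul_nonneg hσ0.le ?_
    rw [Complex.re_tsum (((sum1.mul_left 3).add (sum2.mul_left 4)).add sum3)]
    refine tsum_nonneg fun n => ?_
    rcases Nat.eq_zero_or_pos n with rfl | hn
    · simp
    have hn0 : (n : ℂ) ≠ 0 := by exact_mod_cast hn.ne'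
    set y : ℂ := (n : ℂ) ^ (-(t * I)) with hy
    have hy1 : ‖y‖ ≤ 1 := by
      rw [hy, Complex.norm_natCast_cpow_of_pos hn]
      simp
    have e0 : (n : ℂ) ^ (-(1 + σ : ℂ)) = (((n : ℝ) ^ (-(1 + σ)) : ℝ) : ℂ) := by
      rw [Complex.ofReal_cpow (by positivity)]; push_cast; rfl
    have e2 : (n : ℂ) ^ (-(z0 + σ)) = (((n : ℝ) ^ (-(1 + σ)) : ℝ) : ℂ) * y := by
      rw [← e0, hy, ← Complex.cpow_add _ _ hn0, hz0']; congr 1; ring
    have e3 : (n : ℂ) ^ (-(z1 + σ)) = (((n : ℝ) ^ (-(1 + σ)) : ℝ) : ℂ) * y ^ 2 := by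
      rw [← e0, hy, pow_two, ← Complex.cpow_add _ _ hn0, ← Complex.cpow_add _ _ hn0]
      congr 1; rw [hz1]; push_cast; ring
    have e4 : 3 * (((vonMangoldt n * (1 + ((ZMod.χ₄ (n : ZMod 4) : ℤ) : ℝ)) : ℝ) : ℂ) *
        (n : ℂ) ^ (-(1 + σ : ℂ))) +
        4 * (((vonMangoldt n : ℂ) * ccf h n) * (n : ℂ) ^ (-(z0 + σ))) +
        ((vonMangoldt n : ℂ) * ccf (nzr_sq h) n) * (n : ℂ) ^ (-(z1 + σ)) =
        (((n : ℝ) ^ (-(1 + σ)) : ℝ) : ℂ) * ∑ p ∈ CS n, (((1 / 4) * LamK ⟨p.1, p.2⟩ : ℝ) : ℂ) *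
          (3 + 4 * (h ⟨p.1, p.2⟩ * y) + (h ⟨p.1, p.2⟩ * y) ^ 2) := by
      rw [← lam_one n, ← lam_eq h hh n, ← lam_eq (nzr_sq h) hh2 n, e0, e2, e3]
      unfold bb
      have hsq : ∀ a, nzr_sq h a = (h a) ^ 2 := fun a => rfl
      simp only [hsq]
      have expand : ∀ (A B C D E : ℂ), 3 * (A * D) + 4 * (B * (D * E)) + C * (D * E ^ 2) =
          D * (A * 3 + B * (4 * E) + C * E ^ 2) := by
        intro A B C D E; ring
      rw [expand, Finset.mul_sum, Finset.mul_sum, Finset.mul_sum, Finset.sum_mul, Finset.sum_mul,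
        Finset.sum_mul, ← Finset.sum_add_distrib, ← Finset.sum_add_distrib]
      congr 1
      apply Finset.sum_congr rfl
      intro p _
      push_cast
      ring
    rw [e4, Complex.re_ofReal_mul]
    refine mul_nonneg (by positivity) ?_
    rw [Complex.re_sum]
    apply Finset.sum_nonneg
    intro p _
    rw [Complex.re_ofReal_mul]
    refine mul_nonneg (mul_nonneg (by norm_num) (nzr_LamK_nonneg _)) (nzr_ineq _ ?_)
    rw [norm_mul]
    calc ‖h ⟨p.1, p.2⟩‖ * ‖y‖ ≤ 1 * 1 := mul_le_mul (hh.hb _) hy1 (norm_nonneg _) zero_le_one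
      _ = 1 := one_mul 1
  have hfin := ge_of_tendsto hre hpos
  have hval : (3 * 1 - 4 * (m : ℂ) - (m2 : ℂ) : ℂ).re = 3 - 4 * (m : ℝ) - m2 := by
    simp
  rw [hval] at hfin
  have hm1' : (1 : ℝ) ≤ m := by exact_mod_cast hm1
  have hm2' : (0 : ℝ) ≤ m2 := Nat.cast_nonneg _
  linarith


end Pool.Agent.W816.EC
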